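import Pool.Agent.W770.KP.Stm

/-! KP-PRN (helper382) -/

set_option autoImplicit false

open scoped Classical

namespace Pool.Agent.W382.KP

open Pool.Agent.W770.KP

theorem prn : S_PRN := by
  intro k ι X _ V f hf Λ S hS hcov _ c hc hcs B w hB
  obtain ⟨T, hT⟩ : ∃ T, T = ∑ x ∈ V w, f x := ⟨_, rfl⟩
  have hT0 : 0 ≤ T := by
    rw [hT]
    exact Finset.sum_nonneg fun x _ => hf x
  -- the sums over the levels
  have h1 : T ≤ ∑ l ∈ Λ, ∑ x ∈ V w ∩ S l, f x := by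
    have h2 : ∀ l ∈ Λ, ∑ x ∈ V w ∩ S l, f x = ∑ x ∈ V w, if x ∈ S l then f x else 0 := by
      intro l _
      rw [← Finset.sum_filter]
      refine Finset.sum_congr ?_ fun _ _ => rfl
      ext x
      rw [Finset.mem_inter, Finset.mem_filter]
    rw [Finset.sum_congr rfl h2, Finset.sum_comm, hT]
    refine Finset.sum_le_sum fun x _ => ?_
    rcases (hf x).eq_or_lt with h3 | h3
    · rw [← h3]
      exact Finset.sum_nonneg fun l _ => by split_ifs <;> exact le_refl _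
    · obtain ⟨l, hl, hx⟩ := hcov x h3
      have h4 := Finset.single_le_sum (f := fun l => if x ∈ S l then f x else 0)
        (fun l _ => by
          split_ifs
          · exact hf x
          · exact le_refl _) hl
      rw [if_pos hx] at h4
      exact h4
  have hpow : ∀ l : ℤ, (4 : ℝ) ^ ((l + 1) * ((k : ℤ) + 1)) =
      (4 : ℝ) ^ (k + 1) * (4 : ℝ) ^ (l * ((k : ℤ) + 1)) := by
    intro l
    have : (l + 1) * ((k : ℤ) + 1) = ((k + 1 : ℕ) : ℤ) + l * ((k : ℤ) + 1) := by push_cast; ring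
    rw [this, zpow_add₀ (by norm_num), zpow_natCast]
  have h2 : ∀ l ∈ Λ, ∑ x ∈ V w ∩ S l, f x ≤
      2 * (4 : ℝ) ^ (k + 1) * ((4 : ℝ) ^ (l * ((k : ℤ) + 1)) * ((V w ∩ B l).card : ℝ)) + c l * T := by
    intro l hl
    have h3 : ∑ x ∈ V w ∩ S l, f x ≤
        (4 : ℝ) ^ ((l + 1) * ((k : ℤ) + 1)) * ((V w ∩ S l).card : ℝ) := by
      have h4 : ∑ x ∈ V w ∩ S l, f x ≤ ∑ _x ∈ V w ∩ S l, (4 : ℝ) ^ ((l + 1) * ((k : ℤ) + 1)) :=
        Finset.sum_le_sum fun x hx => (hS l x (Finset.mem_inter.1 hx).2).2.le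
      rw [Finset.sum_const, nsmul_eq_mul, mul_comm] at h4
      exact h4
    have hp0 : (0 : ℝ) < (4 : ℝ) ^ (l * ((k : ℤ) + 1)) := by positivity
    have hp1 : (0 : ℝ) < (4 : ℝ) ^ ((l + 1) * ((k : ℤ) + 1)) := by positivity
    by_cases hcase : c l * T ≤ (4 : ℝ) ^ ((l + 1) * ((k : ℤ) + 1)) * ((V w ∩ S l).card : ℝ)
    · have h4 := hB l hl (hT ▸ hcase)
      have h5 : ((V w ∩ S l).card : ℝ) ≤ 2 * ((V w ∩ B l).card : ℝ) := by exact_mod_cast h4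
      have h6 : (4 : ℝ) ^ ((l + 1) * ((k : ℤ) + 1)) * ((V w ∩ S l).card : ℝ) ≤
          (4 : ℝ) ^ ((l + 1) * ((k : ℤ) + 1)) * (2 * ((V w ∩ B l).card : ℝ)) :=
        mul_le_mul_of_nonneg_left h5 hp1.le
      have h7 : (4 : ℝ) ^ ((l + 1) * ((k : ℤ) + 1)) * (2 * ((V w ∩ B l).card : ℝ)) =
          2 * (4 : ℝ) ^ (k + 1) * ((4 : ℝ) ^ (l * ((k : ℤ) + 1)) * ((V w ∩ B l).card : ℝ)) := by
        rw [hpow]
        ring
      have h8 := mul_nonneg (hc l hl) hT0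
      linarith
    · push Not at hcase
      have h4 : 0 ≤ 2 * (4 : ℝ) ^ (k + 1) *
          ((4 : ℝ) ^ (l * ((k : ℤ) + 1)) * ((V w ∩ B l).card : ℝ)) := by positivity
      linarith
  have h3 := h1.trans (Finset.sum_le_sum h2)
  rw [Finset.sum_add_distrib, ← Finset.mul_sum, ← Finset.sum_mul] at h3
  have h4 : (∑ l ∈ Λ, c l) * T ≤ 1 / 2 * T := mul_le_mul_of_nonneg_right hcs hT0
  have h5 : ∑ x ∈ V w, ∑ l ∈ Λ, (if x ∈ B l then (4 : ℝ) ^ (l * ((k : ℤ) + 1)) else 0) =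
      ∑ l ∈ Λ, ((4 : ℝ) ^ (l * ((k : ℤ) + 1)) * ((V w ∩ B l).card : ℝ)) := by
    rw [Finset.sum_comm]
    refine Finset.sum_congr rfl fun l _ => ?_
    rw [← Finset.sum_filter, Finset.sum_const, nsmul_eq_mul, mul_comm]
    congr 3
  rw [h5, ← hT]
  have h6 : (4 : ℝ) ^ (k + 2) = 2 * (2 * (4 : ℝ) ^ (k + 1)) := by ring
  rw [h6]
  nlinarith

end Pool.Agent.W382.KP
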